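import Pool.Agent.H825Z.RSym.Bridge

/-!
For an `r`-th symmetric pseudo-Riemannian manifold of indefinite signature, timelike, lightlike,
spacelike and full geodesic completeness are equivalent.  The definitions are in
`Pool.Agent.H825Z.RSym.Defs`.
-/

set_option autoImplicit false

open scoped ContDiff Manifold
open Pool.Agent.H825Z.RSym

namespace Pool.Agent.Results.MP_611141_gt.ACausalCompleteness

theorem result {E : Type*} [NormedAddCommGroup E] [NormedSpace ℝ E] [FiniteDimensional ℝ E]
    {M : Type*} [TopologicalSpace M] [ChartedSpace E M] [IsManifold 𝓘(ℝ, E) ∞ M] [T2Space M]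
    [ConnectedSpace M] (g : PseudoMetric E M) (hg : g.IsIndefinite) (r : ℕ)
    (hr : g.IsSymmetricOfOrder r) :
    List.TFAE [g.TimelikeComplete, g.LightlikeComplete, g.SpacelikeComplete,
      g.GeodesicallyComplete] :=
  tfae g hg hr

end Pool.Agent.Results.MP_611141_gt.ACausalCompleteness
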